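import Mathlib
import Pool.Agent.H55.SCDefs
import Pool.Agent.H55.CSDefs
import Pool.Agent.H55.Lav.CSMain

set_option autoImplicit false

/-!
# It is consistent that `𝔰 = 𝔰_ω = ℵ₁` and there is no club-splitting sequence of length `ω₁`
-/

namespace Pool.Agent.Results.MP_d4f25e_lc.LaverModel

open Pool.Agent.H55.SC Pool.Agent.H55.CS

/-- There is a countable model `(M, E)` of `ZFC`, with a wellfounded membership relation, in which the splitting
number `𝔰` and the cardinal `𝔰_ω` are both equal to `ℵ₁` and in which there is no club-splitting sequence of length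
`ω₁`. Here `w` is the set of natural numbers and `κ` is the cardinal `ω₁` of the model; `IsSplitting` and
`IsOmegaSplitting` are the two kinds of families of subsets of `ω` whose least sizes are `𝔰` and `𝔰_ω`. -/
theorem result : ∃ (M : Type 1) (E : M → M → Prop), Countable M ∧ WellFounded E ∧ ZFC E ∧
    ∃ w κ, IsOmega E w ∧ IsOmega1 E w κ ∧ LeastAleph1 E w κ (IsSplitting E w) ∧
      LeastAleph1 E w κ (IsOmegaSplitting E w) ∧ ¬ ∃ A, IsClubSplitting E w κ A :=
  Pool.Agent.H55.Lav.main_result

end Pool.Agent.Results.MP_d4f25e_lc.LaverModel
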